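import Pool.Agent.H71.D2.Cx
import Pool.Agent.H71.DA.Ext

/-!
# The Deligne complex of a two-dimensional Artin group satisfies the conditions of typed complexes with labels
-/

set_option autoImplicit false

namespace Pool.Agent.H71.D2

open Pool.Agent.H52.PAG Pool.Agent.H54.CX Pool.Agent.H59.DE Pool.Agent.H52.T2 Pool.Agent.H56.DC
  Pool.Agent.H56.DC.DV Pool.Agent.H71.DA

variable {B : Type}

/-- two-dimensional: `1 / m + 1 / n + 1 / l ≤ 1` for three generators with finite labels `m, n, l` -/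
def TwoDim (M : CoxeterMatrix B) : Prop :=
  ∀ i j k, i ≠ j → j ≠ k → i ≠ k → M i j ≠ 0 → M j k ≠ 0 → M i k ≠ 0 →
    M j k * M i k + M i j * M i k + M i j * M j k ≤ M i j * M j k * M i k

section Words

variable {G : Type} [Group G]

theorem altz_congr (x y : G) {k l : ℕ → ℤ} {n : ℕ} (h : ∀ i < n, k i = l i) :
    altz x y k n = altz x y l n := by
  induction n with
  | zero => rfl
  | succ n ih =>
    rw [altz_succ, altz_succ, ih fun i hi => h i (by omega), h n (by omega)]

end Words

variable {M : CoxeterMatrix B}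

theorem tri2_iff {a : Art M} {i : B} {x : Art M ⧸ par M {i}} {T : Pr M} {y : Art M ⧸ par M T.1} :
    (dcx2 M).Tri (ce a) (hy i x) (pt T y) ↔ i ∈ T.1 ∧ x = QuotientGroup.mk a ∧ y = QuotientGroup.mk a :=
  tri_iff

/-- the data of a triangle -/
theorem t3_cases {g e : DV M} {T : Pr M} {y : Art M ⧸ par M T.1} (h : T3 (dcx2 M) ty g e (pt T y)) :
    ∃ (a : Art M) (i : B), g = ce a ∧ e = hy i (QuotientGroup.mk a) ∧ i ∈ T.1 := by
  obtain ⟨h1, h2, -, h4⟩ := h
  obtain ⟨a, rfl⟩ := exists_ce h1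
  obtain ⟨i, x, rfl⟩ := exists_hy h2
  obtain ⟨h5, h6, -⟩ := tri2_iff.1 h4
  exact ⟨a, i, rfl, by rw [h6], h5⟩

theorem hy_eq {i j : B} {a b : Art M}
    (h : (hy i (QuotientGroup.mk a) : DV M) = hy j (QuotientGroup.mk b)) :
    i = j ∧ a⁻¹ * b ∈ par M {i} := by
  have h1 : i = j := by
    injection h
  subst h1
  have h2 : (QuotientGroup.mk a : Art M ⧸ par M {i}) = QuotientGroup.mk b := by
    injection h
  exact ⟨rfl, QuotientGroup.eq.1 h2⟩

/-- the word of a gallery -/
theorem gy_word {s t : B} {T : Pr M} (hT : T.1 = {s, t}) {y : Art M ⧸ par M T.1} {n : ℕ} {f e g g' : DV M}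
    (h : Gy (dcx2 M) ty (pt T y) n f e g g') :
    T3 (dcx2 M) ty g' e (pt T y) ∧ T3 (dcx2 M) ty g f (pt T y) ∧ 0 < n ∧
    (tp f = {s} → ∃ (a a' : Art M) (k : ℕ → ℤ), g = ce a ∧ g' = ce a' ∧ (∀ i < n, k i ≠ 0) ∧
      a' = a * altz (gen M s) (gen M t) k n ∧ tp e = if Odd n then {s} else {t}) := by
  induction h with
  | one e g g' h1 h2 h3 =>
    refine ⟨h2, h1, one_pos, ?_⟩
    intro hf
    obtain ⟨a, i, rfl, rfl, hi⟩ := t3_cases h1
    obtain ⟨a', j, rfl, hj, -⟩ := t3_cases h2
    have hi : i = s := Set.singleton_injective hf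
    subst hi
    obtain ⟨rfl, h4⟩ := hy_eq hj
    obtain ⟨l, hl⟩ := mem_par_singleton.1 h4
    refine ⟨a, a', fun _ => l, rfl, rfl, ?_, ?_, ?_⟩
    · intro _ _ h0
      apply h3
      have h0 : l = 0 := h0
      rw [h0, zpow_zero] at hl
      rw [inv_mul_eq_one.1 hl.symm]
    · show a' = a * (1 * (if Odd 0 then gen M t else gen M i) ^ l)
      rw [if_neg (by decide), one_mul, hl, mul_inv_cancel_left]
    · rw [if_pos (by decide)]
      rfl
  | step n f e g g' e' g'' h0 hne h1 h2 h3 ih =>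
    obtain ⟨ih1, ih2, ih3, ih4⟩ := ih
    refine ⟨h2, ih2, by omega, ?_⟩
    intro hf
    obtain ⟨a, a', k, rfl, rfl, hk, ha', he⟩ := ih4 hf
    obtain ⟨b, j, hb, rfl, hj⟩ := t3_cases ih1
    injection hb with hb
    subst hb
    obtain ⟨b', i, hb', rfl, hi⟩ := t3_cases h1
    injection hb' with hb'
    subst hb'
    obtain ⟨a'', i', rfl, hi', -⟩ := t3_cases h2
    obtain ⟨rfl, h4⟩ := hy_eq hi'
    obtain ⟨l, hl⟩ := mem_par_singleton.1 h4
    have hij : i ≠ j := fun h => hne (by subst h; rfl)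
    have hl0 : l ≠ 0 := by
      intro h0
      apply h3
      rw [h0, zpow_zero] at hl
      rw [inv_mul_eq_one.1 hl.symm]
    rw [hT] at hi hj
    have hj' : ({j} : Set B) = if Odd n then {s} else {t} := he
    have hval : i = if Odd n then t else s := by
      by_cases hn : Odd n
      · rw [if_pos hn] at hj' ⊢
        have hjs : j = s := Set.singleton_injective hj'
        rcases hi with hi | hi
        · exact (hij (hi.trans hjs.symm)).elim
        · exact hi
      · rw [if_neg hn] at hj' ⊢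
        have hjt : j = t := Set.singleton_injective hj'
        rcases hi with hi | hi
        · exact hi
        · exact (hij ((Set.mem_singleton_iff.1 hi).trans hjt.symm)).elim
    classical
    refine ⟨a, a'', Function.update k n l, rfl, rfl, ?_, ?_, ?_⟩
    · intro r hr
      rcases eq_or_ne r n with rfl | hrn
      · rw [Function.update_self]
        exact hl0
      · rw [Function.update_of_ne hrn]
        exact hk r (by omega)
    · rw [altz_succ, Function.update_self, ← mul_assoc, altz_congr (l := k), ← ha']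
      · have h5 : gen M i = if Odd n then gen M t else gen M s := by
          rw [hval]
          split_ifs <;> rfl
        rw [← h5, hl, mul_inv_cancel_left]
      · intro r hr
        rw [Function.update_of_ne (by omega)]
    · show ({i} : Set B) = _
      rw [hval]
      by_cases hn : Odd n
      · rw [if_pos hn, if_neg (by rw [Nat.not_odd_iff_even]; exact hn.add_one)]
      · rw [if_neg hn, if_pos (by rw [Nat.not_odd_iff_even] at hn; exact hn.add_one)]

/-- closed galleries are long -/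
theorem gy_gir {T : Pr M} {y : Art M ⧸ par M T.1} {n : ℕ} {f e g : DV M}
    (h : Gy (dcx2 M) ty (pt T y) n f e g g) (hfe : f ≠ e) : 2 * mu M T.1 ≤ n := by
  have key : ∀ s t : B, s ≠ t → M s t ≠ 0 → T.1 = {s, t} → tp f = {s} → 2 * mu M T.1 ≤ n := by
    intro s t hst hm hT hf
    obtain ⟨h1, h2, h3, h4⟩ := gy_word hT h
    obtain ⟨a, a', k, hg, hg', hk, ha, he⟩ := h4 hf
    have haa : a = a' := by
      have : (ce a : DV M) = ce a' := hg.symm.trans hg'
      injection this
    subst haa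
    have hw : altz (gen M s) (gen M t) k n = 1 := mul_eq_left.1 ha.symm
    obtain ⟨b, i, hb, hfi, -⟩ := t3_cases h2
    obtain ⟨b', j, hb', hej, -⟩ := t3_cases h1
    have hbb : b = b' := by
      have : (ce b : DV M) = ce b' := hb.symm.trans hb'
      injection this
    have hev : Even n := by
      by_contra hodd
      rw [Nat.not_even_iff_odd] at hodd
      rw [if_pos hodd] at he
      apply hfe
      rw [hfi] at hf ⊢
      rw [hej] at he ⊢
      have h5 : i = s := Set.singleton_injective hf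
      have h6 : j = s := Set.singleton_injective he
      subst h5
      subst h6
      rw [hbb]
    by_contra hcon
    rw [not_le, hT, mu_pair M hst hm] at hcon
    exact altz_ne_one M hst hm h3 hev hcon hk hw
  obtain ⟨s, t, hst, hm, hT⟩ := T.2
  obtain ⟨-, h2, -, -⟩ := gy_word hT h
  obtain ⟨a, i, -, rfl, hi⟩ := t3_cases h2
  rw [hT] at hi
  rcases hi with hi | hi
  · exact key s t hst hm hT (by rw [← hi]; rfl)
  · refine key t s hst.symm (by rw [M.symmetric]; exact hm) (by rw [hT, Set.pair_comm]) ?_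
    rw [← Set.mem_singleton_iff.1 hi]
    rfl

/-- the Deligne complex of a two-dimensional Artin group -/
theorem dcx2_tc (h2 : TwoDim M) (hd : Deg M) : TC2 (dcx2 M) ty tp (mu M) where
  kd_le := ty_le
  kd_ne x y h := DV.Adj.ty_ne h
  kd_τ x y h := ty_of_tp h
  len x y h := rfl
  fill g e p hg he hp h1 h2 := by
    obtain ⟨a, rfl⟩ := exists_ce hg
    obtain ⟨i, x, rfl⟩ := exists_hy he
    obtain ⟨T, y, rfl⟩ := exists_pt hp
    have h1 : (dcx M).Edge (ce a) (hy i x) := h1
    have h2 : (dcx M).Edge (hy i x) (pt T y) := h2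
    rw [edge_ce_hy] at h1
    obtain ⟨hi, b, h3, h4⟩ := edge_hy_pt.1 h2
    rw [tri2_iff]
    refine ⟨hi, h1, ?_⟩
    rw [h4]
    exact mk_of_mk (Set.singleton_subset_iff.2 hi) (h3.symm.trans h1)
  cell e p he hp h := by
    obtain ⟨i, x, rfl⟩ := exists_hy he
    obtain ⟨a, rfl⟩ := QuotientGroup.mk_surjective x
    exact ⟨ce a, rfl, (edge_ce_hy (M := M)).2 rfl⟩
  inj g x y hg hx hy hxy := by
    obtain ⟨a, rfl⟩ := exists_ce hg
    have hk := ty_of_tp hxy
    cases x with
    | ce b => exact (DV.Adj.ty_ne hx rfl).elim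
    | hy i x =>
      cases y with
      | ce b => exact (DV.Adj.ty_ne hy rfl).elim
      | hy j y =>
        have h1 : i = j := Set.singleton_injective hxy
        subst h1
        have hx : (dcx M).Edge (ce a) (DV.hy i x) := hx
        have hy : (dcx M).Edge (ce a) (DV.hy i y) := hy
        rw [edge_ce_hy] at hx hy
        rw [hx, hy]
      | pt T y => simp [ty] at hk
    | pt T x =>
      cases y with
      | ce b => exact (DV.Adj.ty_ne hy rfl).elim
      | hy j y => simp [ty] at hk
      | pt U y =>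
        have h1 : T = U := Subtype.ext hxy
        subst h1
        have hx : (dcx M).Edge (ce a) (pt T x) := hx
        have hy : (dcx M).Edge (ce a) (pt T y) := hy
        rw [edge_ce_pt] at hx hy
        rw [hx, hy]
  two g p hg hp h := by
    obtain ⟨a, rfl⟩ := exists_ce hg
    obtain ⟨T, y, rfl⟩ := exists_pt hp
    have h : (dcx M).Edge (ce a) (pt T y) := h
    rw [edge_ce_pt] at h
    obtain ⟨i, j, hij, hm, hT⟩ := T.2
    have hi : i ∈ T.1 := by rw [hT]; exact Set.mem_insert _ _
    have hj : j ∈ T.1 := by rw [hT]; exact Set.mem_insert_of_mem _ rfl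
    refine ⟨hy i (QuotientGroup.mk a), hy j (QuotientGroup.mk a), ?_, rfl, rfl, tri2_iff.2 ⟨hi, rfl, h⟩,
      tri2_iff.2 ⟨hj, rfl, h⟩, ?_⟩
    · intro e
      injection e with e1 e2
      exact hij e1
    · intro x hx
      have h1 := hx.1
      have h2 := hx.2.1
      cases x with
      | ce b => exact (DV.Adj.ty_ne h1 rfl).elim
      | hy k x =>
        obtain ⟨hk, hx, -⟩ := tri2_iff.1 hx
        rw [hT] at hk
        rcases hk with rfl | hk
        · left; rw [hx]
        · have hk : k = j := hk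
          subst hk
          right; rw [hx]
      | pt U x => exact (DV.Adj.ty_ne h2 rfl).elim
  pts g e hg he h := by
    obtain ⟨a, rfl⟩ := exists_ce hg
    obtain ⟨i, x, rfl⟩ := exists_hy he
    have h : (dcx M).Edge (ce a) (hy i x) := h
    rw [edge_ce_hy] at h
    obtain ⟨j, k, hjk, hij, hik, h1, h2⟩ := hd i
    refine ⟨pt ⟨{i, j}, i, j, hij, h1, rfl⟩ (QuotientGroup.mk a),
      pt ⟨{i, k}, i, k, hik, h2, rfl⟩ (QuotientGroup.mk a), ?_, rfl, rfl,
      tri2_iff.2 ⟨Set.mem_insert _ _, h, rfl⟩, tri2_iff.2 ⟨Set.mem_insert _ _, h, rfl⟩⟩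
    intro e
    injection e with e1 e2
    have e3 : ({i, j} : Set B) = {i, k} := congrArg Subtype.val e1
    have e4 : j ∈ ({i, k} : Set B) := by rw [← e3]; exact Set.mem_insert_of_mem _ rfl
    rcases e4 with e4 | e4
    · exact hij e4.symm
    · exact hjk e4
  lg g e e' p q hg he he' hp hq hee h1 h2 h3 h4 := by
    obtain ⟨a, rfl⟩ := exists_ce hg
    obtain ⟨i, x, rfl⟩ := exists_hy he
    obtain ⟨j, x', rfl⟩ := exists_hy he'
    obtain ⟨T, y, rfl⟩ := exists_pt hp
    obtain ⟨U, z, rfl⟩ := exists_pt hq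
    obtain ⟨hi, h5, h6⟩ := tri2_iff.1 h1
    obtain ⟨hj, h7, -⟩ := tri2_iff.1 h2
    obtain ⟨hi', -, h8⟩ := tri2_iff.1 h3
    obtain ⟨hj', -, -⟩ := tri2_iff.1 h4
    have hij : i ≠ j := by
      rintro rfl
      exact hee (by rw [h5, h7])
    have h9 : T = U := Subtype.ext ((pair_eq hij hi hj).trans (pair_eq hij hi' hj').symm)
    subst h9
    rw [h6, h8]
  mu p _ := two_le_mu M _
  k3 g e₁ e₂ e₃ p₁ p₂ p₃ t1 t2 t3 t4 t5 t6 n1 n2 n3 := by
    obtain ⟨hg, he₁, hp₁, t1⟩ := t1
    obtain ⟨-, he₂, -, t2⟩ := t2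
    obtain ⟨-, -, hp₂, t3⟩ := t3
    obtain ⟨-, he₃, -, t4⟩ := t4
    obtain ⟨-, -, hp₃, t5⟩ := t5
    obtain ⟨-, -, -, t6⟩ := t6
    obtain ⟨a, rfl⟩ := exists_ce hg
    obtain ⟨i, x₁, rfl⟩ := exists_hy he₁
    obtain ⟨j, x₂, rfl⟩ := exists_hy he₂
    obtain ⟨k, x₃, rfl⟩ := exists_hy he₃
    obtain ⟨T₁, y₁, rfl⟩ := exists_pt hp₁
    obtain ⟨T₂, y₂, rfl⟩ := exists_pt hp₂
    obtain ⟨T₃, y₃, rfl⟩ := exists_pt hp₃
    obtain ⟨a1, u1, -⟩ := tri2_iff.1 t1
    obtain ⟨a2, u2, -⟩ := tri2_iff.1 t2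
    obtain ⟨a3, -, -⟩ := tri2_iff.1 t3
    obtain ⟨a4, u4, -⟩ := tri2_iff.1 t4
    obtain ⟨a5, -, -⟩ := tri2_iff.1 t5
    obtain ⟨a6, -, -⟩ := tri2_iff.1 t6
    have hij : i ≠ j := by
      rintro rfl
      exact n1 (by rw [u1, u2])
    have hjk : j ≠ k := by
      rintro rfl
      exact n2 (by rw [u2, u4])
    have hik : i ≠ k := by
      rintro rfl
      exact n3 (by rw [u1, u4])
    have m1 := pair_label hij a1 a2
    have m2 := pair_label hjk a3 a4
    have m3 := pair_label hik a6 a5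
    have e1 : mu M (tp (pt T₁ y₁)) = M i j := by
      show mu M T₁.1 = _
      rw [pair_eq hij a1 a2, mu_pair M hij m1]
    have e2 : mu M (tp (pt T₂ y₂)) = M j k := by
      show mu M T₂.1 = _
      rw [pair_eq hjk a3 a4, mu_pair M hjk m2]
    have e3 : mu M (tp (pt T₃ y₃)) = M i k := by
      show mu M T₃.1 = _
      rw [pair_eq hik a6 a5, mu_pair M hik m3]
    rw [e1, e2, e3]
    have h3 := h2 i j k hij hjk hik m1 m2 m3
    have h4 : ((M j k : ℝ) * M i k + M i j * M i k + M i j * M j k ≤ M i j * M j k * M i k) := by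
      exact_mod_cast h3
    have p1 : (0 : ℝ) < M i j := by exact_mod_cast Nat.pos_of_ne_zero m1
    have p2 : (0 : ℝ) < M j k := by exact_mod_cast Nat.pos_of_ne_zero m2
    have p3 : (0 : ℝ) < M i k := by exact_mod_cast Nat.pos_of_ne_zero m3
    rw [div_add_div _ _ p1.ne' p2.ne', div_add_div _ _ (mul_pos p1 p2).ne' p3.ne',
      div_le_one (by positivity)]
    linarith
  gir p n f e g h hfe := by
    have hp : ty p = 2 := by
      have : ∀ {n f e g g'}, Gy (dcx2 M) ty p n f e g g' → ty p = 2 := by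
        intro n f e g g' h
        induction h with
        | one e g g' h1 h2 h3 => exact h1.2.2.1
        | step n f e g g' e' g'' h0 hne h1 h2 h3 ih => exact ih
      exact this h
    obtain ⟨T, y, rfl⟩ := exists_pt hp
    exact gy_gir h hfe

/-! ### Three more generators -/

theorem ext_twoDim (h : TwoDim M) : TwoDim (ext M) := by
  have two : ∀ i j : B, i ≠ j → M i j ≠ 0 → 2 ≤ M i j := fun i j => two_le_label M
  intro x y z hxy hyz hxz m1 m2 m3
  have key : ∀ m : ℕ, 2 ≤ m → 4 * 4 + m * 4 + m * 4 ≤ m * 4 * 4 := fun m hm => by omega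
  rcases x with i | i <;> rcases y with j | j <;> rcases z with k | k
  · exact h i j k (fun e => hxy (by rw [e])) (fun e => hyz (by rw [e])) (fun e => hxz (by rw [e])) m1 m2 m3
  · have h1 := two i j (fun e => hxy (by rw [e])) m1
    rw [ext_inl_inr, ext_inl_inr, ext_inl]
    exact key _ h1
  · have h1 := two i k (fun e => hxz (by rw [e])) m3
    rw [ext_inl_inr, ext_inr_inl, ext_inl]
    have := key _ h1
    linarith
  · rw [ext_inl_inr, ext_inl_inr, ext_inr M fun e => hyz (by rw [e])]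
    norm_num
  · have h1 := two j k (fun e => hyz (by rw [e])) m2
    rw [ext_inr_inl, ext_inr_inl, ext_inl]
    have := key _ h1
    linarith
  · rw [ext_inr_inl, ext_inl_inr, ext_inr M fun e => hxz (by rw [e])]
    norm_num
  · rw [ext_inr_inl, ext_inr_inl, ext_inr M fun e => hxy (by rw [e])]
    norm_num
  · have h1 : ext M (Sum.inr i) (Sum.inr j) = 4 := ext_inr M fun e => hxy (by rw [e])
    have h2 : ext M (Sum.inr j) (Sum.inr k) = 4 := ext_inr M fun e => hyz (by rw [e])
    have h3 : ext M (Sum.inr i) (Sum.inr k) = 4 := ext_inr M fun e => hxz (by rw [e])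
    rw [h1, h2, h3]
    norm_num

theorem ext_deg (M : CoxeterMatrix B) : Deg (ext M) := by
  intro x
  obtain ⟨y, z, h1, h2, h3, h4, h5⟩ := ext_two M x
  exact ⟨y, z, h3, h1, h2, h4, h5⟩

/-- every generator of `ext M` has a finite label which is at least three -/
theorem ext_three (M : CoxeterMatrix B) (x : B ⊕ Fin 3) : ∃ y, x ≠ y ∧ 3 ≤ ext M x y := by
  rcases x with i | i
  · exact ⟨Sum.inr 0, by simp, by rw [ext_inl_inr]; norm_num⟩
  · refine ⟨Sum.inr (i + 1), ?_, ?_⟩
    · fin_cases i <;> simp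
    · rw [ext_inr M (by fin_cases i <;> decide)]
      norm_num

/-- the Deligne complex of `ext M` -/
theorem tc_ext2 (h : TwoDim M) : TC2 (dcx2 (ext M)) ty tp (mu (ext M)) :=
  dcx2_tc (ext_twoDim h) (ext_deg M)

end Pool.Agent.H71.D2
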