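import Pool.Agent.H56.DC.TCI
import Pool.Agent.H52.T2.Defs
import Pool.Agent.H71.DA.GirM

/-!
# The Deligne complex of a two-dimensional Artin group as a typed complex with labels

The vertices and triangles are those of `dcx M`; the lengths depend on the labels of the points.
-/

set_option autoImplicit false

namespace Pool.Agent.H71.D2

open Pool.Agent.H52.PAG Pool.Agent.H54.CX Pool.Agent.H59.DE Pool.Agent.H52.T2 Pool.Agent.H56.DC
  Pool.Agent.H56.DC.DV Pool.Agent.H71.DA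

/-! ### The lengths -/

theorem ang_pos {m : ℕ} (hm : 2 ≤ m) :
    0 < Real.sin (Real.pi / (2 * m)) ∧ Real.sin (Real.pi / (2 * m)) < 1 ∧
      0 < Real.cos (Real.pi / (2 * m)) ∧ Real.cos (Real.pi / (2 * m)) < 1 ∧
      1 < Real.sin (Real.pi / (2 * m)) + Real.cos (Real.pi / (2 * m)) := by
  have hpi := Real.pi_pos
  have hm' : (2 : ℝ) ≤ m := by exact_mod_cast hm
  have h0 : 0 < Real.pi / (2 * m) := by positivity
  have h1 : Real.pi / (2 * m) < Real.pi / 2 := by
    rw [div_lt_div_iff₀ (by positivity) (by norm_num)]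
    nlinarith
  have hs : 0 < Real.sin (Real.pi / (2 * m)) := Real.sin_pos_of_pos_of_lt_pi h0 (by linarith)
  have hc : 0 < Real.cos (Real.pi / (2 * m)) :=
    Real.cos_pos_of_mem_Ioo ⟨by linarith, h1⟩
  have hsq := Real.sin_sq_add_cos_sq (Real.pi / (2 * m))
  refine ⟨hs, ?_, hc, ?_, ?_⟩
  · nlinarith
  · nlinarith
  · nlinarith [mul_pos hs hc]

theorem Lc_pos {m : ℕ} (hm : 2 ≤ m) : 0 < Lc m := by
  obtain ⟨h1, -, h2, -, -⟩ := ang_pos hm
  exact div_pos h2 h1

theorem Ls_pos {m : ℕ} (hm : 2 ≤ m) : 0 < Ls m := by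
  obtain ⟨h1, -, h2, -, -⟩ := ang_pos hm
  exact div_pos one_pos h1

theorem tri1 {m : ℕ} (hm : 2 ≤ m) : 1 < Lc m + Ls m := by
  obtain ⟨h1, h2, h3, h4, h5⟩ := ang_pos hm
  unfold Lc Ls
  rw [← add_div, lt_div_iff₀ h1]
  linarith

theorem tri2 {m : ℕ} (hm : 2 ≤ m) : Lc m < 1 + Ls m := by
  obtain ⟨h1, h2, h3, h4, h5⟩ := ang_pos hm
  have h6 : Lc m < Ls m := by
    unfold Lc Ls
    rw [div_lt_div_iff_of_pos_right h1]
    exact h4
  linarith

theorem tri3 {m : ℕ} (hm : 2 ≤ m) : Ls m < 1 + Lc m := by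
  obtain ⟨h1, h2, h3, h4, h5⟩ := ang_pos hm
  unfold Lc Ls
  rw [div_lt_iff₀ h1, add_mul, div_mul_cancel₀ _ h1.ne']
  linarith

theorem L2_comm (a b m n : ℕ) : L2 a b m n = L2 b a n m := by
  unfold L2
  split <;> first | rfl | (split <;> first | rfl | simp_all)

theorem L2_pos {a b m n : ℕ} (hm : 2 ≤ m) (hn : 2 ≤ n) : 0 < L2 a b m n := by
  unfold L2
  split
  · exact one_pos
  · exact one_pos
  · exact Ls_pos hn
  · exact Ls_pos hm
  · exact Lc_pos hn
  · exact Lc_pos hm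
  · exact one_pos

theorem L2_lt {a b c l m n : ℕ} (hl : 2 ≤ l) (hm : 2 ≤ m) (hn : 2 ≤ n) (ha : a ≤ 2) (hb : b ≤ 2)
    (hc : c ≤ 2) (hab : a ≠ b) (hbc : b ≠ c) (hac : a ≠ c) :
    L2 a c l n < L2 a b l m + L2 b c m n := by
  interval_cases a <;> interval_cases b <;> interval_cases c <;>
    first
    | (exfalso; omega)
    | (simp only [L2]
       first
       | linarith [tri1 hl, tri2 hl, tri3 hl]
       | linarith [tri1 hm, tri2 hm, tri3 hm]
       | linarith [tri1 hn, tri2 hn, tri3 hn])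

variable {B : Type} (M : CoxeterMatrix B)

/-! ### The labels of the types -/

open Classical in
/-- the label of a type: `M i j` for `{i, j}` -/
noncomputable def mu (T : Set B) : ℕ :=
  if h : ∃ i j, i ≠ j ∧ M i j ≠ 0 ∧ T = {i, j} then M h.choose h.choose_spec.choose else 2

theorem pair_inj {i j a b : B} (hab : a ≠ b) (h : ({i, j} : Set B) = {a, b}) :
    (i = a ∧ j = b) ∨ (i = b ∧ j = a) := by
  have h1 : a ∈ ({i, j} : Set B) := by rw [h]; exact Set.mem_insert _ _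
  have h2 : b ∈ ({i, j} : Set B) := by rw [h]; exact Set.mem_insert_of_mem _ rfl
  rcases h1 with h1 | h1
  · rcases h2 with h2 | h2
    · exact (hab (h1.trans h2.symm)).elim
    · exact Or.inl ⟨h1.symm, (Set.mem_singleton_iff.1 h2).symm⟩
  · rcases h2 with h2 | h2
    · exact Or.inr ⟨h2.symm, (Set.mem_singleton_iff.1 h1).symm⟩
    · exact (hab ((Set.mem_singleton_iff.1 h1).trans (Set.mem_singleton_iff.1 h2).symm)).elim

theorem mu_pair {i j : B} (hij : i ≠ j) (hm : M i j ≠ 0) : mu M {i, j} = M i j := by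
  have h : ∃ a b, a ≠ b ∧ M a b ≠ 0 ∧ ({i, j} : Set B) = {a, b} := ⟨i, j, hij, hm, rfl⟩
  unfold mu
  rw [dif_pos h]
  obtain ⟨h1, h2, h3⟩ := h.choose_spec.choose_spec
  rcases pair_inj h1 h3 with ⟨h4, h5⟩ | ⟨h4, h5⟩
  · exact congrArg₂ M.M h4.symm h5.symm
  · exact (congrArg₂ M.M h5.symm h4.symm).trans (M.symmetric _ _)

theorem two_le_label {i j : B} (hij : i ≠ j) (hm : M i j ≠ 0) : 2 ≤ M i j := by
  have h1 : M i j ≠ 1 := M.off_diagonal i j hij
  have h2 : M i j ≠ 0 := hm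
  omega

theorem two_le_mu (T : Set B) : 2 ≤ mu M T := by
  by_cases h : ∃ i j, i ≠ j ∧ M i j ≠ 0 ∧ T = {i, j}
  · obtain ⟨i, j, hij, hm, rfl⟩ := h
    rw [mu_pair M hij hm]
    exact two_le_label M hij hm
  · unfold mu
    rw [dif_neg h]

/-- the Deligne complex with the metric of the labels -/
noncomputable def dcx2 : Cpx (DV M) where
  Edge := DV.Adj
  Tri u v w := DV.Adj u v ∧ DV.Adj v w ∧ DV.Adj u w
  len u v := L2 (ty u) (ty v) (mu M (tp u)) (mu M (tp v))
  ne u v h e := h.ty_ne (by rw [e])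
  symm u v h := h.symm
  edge u v w h := h.1
  rot u v w h := ⟨h.2.1, h.2.2.symm, h.1.symm⟩
  swap u v w h := ⟨h.1.symm, h.2.2, h.2.1⟩
  len_symm u v _ := L2_comm _ _ _ _
  pos u v _ := L2_pos (two_le_mu M _) (two_le_mu M _)
  lt u v w h := L2_lt (two_le_mu M _) (two_le_mu M _) (two_le_mu M _) (DV.ty_le u) (DV.ty_le v)
    (DV.ty_le w) h.1.ty_ne h.2.1.ty_ne h.2.2.ty_ne

variable {M}

theorem dcx2_inv : (dcx2 M).Inv (Art M) where
  edge g _ _ h := h.smul g
  tri g _ _ _ h := ⟨h.1.smul g, h.2.1.smul g, h.2.2.smul g⟩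
  len g u v _ := by
    show L2 (ty (g • u)) (ty (g • v)) (mu M (tp (g • u))) (mu M (tp (g • v))) =
      L2 (ty u) (ty v) (mu M (tp u)) (mu M (tp v))
    rw [DV.ty_smul, DV.ty_smul, tp_smul, tp_smul]

theorem dcx2_tact : TAct (dcx2 M) ty tp (Art M) where
  inv := dcx2_inv
  type := tp_smul
  free g c hc h := dcx_tact.free g c hc h

theorem dcx2_fin [Finite B] : FinCell (dcx2 M) ty := fun c hc => dcx_fin c hc

theorem htp_dcx2 {l m : List (DV M)} (h : (dcx M).Htp l m) : (dcx2 M).Htp l m := by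
  refine Relation.EqvGen.mono (fun a b hab => ?_) _ _ h
  cases hab with
  | stay u w a => exact Cpx.Move.stay u w a
  | back u w a b h => exact Cpx.Move.back u w a b h
  | tri u w a b c h => exact Cpx.Move.tri u w a b c h

theorem path_dcx2 {l : List (DV M)} {a b : DV M} : (dcx2 M).Path l a b ↔ (dcx M).Path l a b :=
  ⟨fun h => ⟨h.chain, h.head, h.last⟩, fun h => ⟨h.chain, h.head, h.last⟩⟩

/-- simply connected -/
theorem dcx2_sc (M : CoxeterMatrix B) : (dcx2 M).SC where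
  nonempty := (dcx_sc M).nonempty
  conn a b := ((dcx_sc M).conn a b).imp fun _ h => path_dcx2.2 h
  contr a l h := htp_dcx2 ((dcx_sc M).contr a l (path_dcx2.1 h))

theorem bdd_dcx2 [Finite B] (M : CoxeterMatrix B) : ∃ K : ℕ, ∀ p : DV M, ty p = 2 → mu M (tp p) ≤ K := by
  classical
  have := Fintype.ofFinite B
  refine ⟨∑ i : B, ∑ j : B, M i j, ?_⟩
  intro p hp
  obtain ⟨T, y, rfl⟩ := exists_pt hp
  obtain ⟨T, i, j, hij, hm, rfl⟩ := T
  show mu M {i, j} ≤ _
  rw [mu_pair M hij hm]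
  calc M i j ≤ ∑ j : B, M i j :=
        Finset.single_le_sum (f := fun j => M i j) (fun _ _ => Nat.zero_le _) (Finset.mem_univ j)
    _ ≤ ∑ i : B, ∑ j : B, M i j :=
        Finset.single_le_sum (f := fun i => ∑ j : B, M i j) (fun _ _ => Nat.zero_le _) (Finset.mem_univ i)

end Pool.Agent.H71.D2
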