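import Pool.Agent.H71.D2.Tc
import Pool.Agent.H54.AR2.Large

/-!
# The realisation of the Deligne complex of a two-dimensional Artin group
-/

set_option autoImplicit false

namespace Pool.Agent.H71.D2

open Pool.Agent.H54.AR2 Pool.Agent.H54.CX Pool.Agent.H59.DE Pool.Agent.H56.DC

theorem hreal (B : Type) [Finite B] (M : CoxeterMatrix B) (h : Pool.Agent.H54.AR2.TwoDim M) (hd : Deg M) :
    ∃ (X : Cpx (DV M)) (μ : Set B → ℕ), Real B M X μ ∧ FinCell X DV.ty :=
  ⟨dcx2 M, mu M, ⟨dcx2_tc h hd, dcx2_sc M, dcx2_tact⟩, dcx2_fin⟩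

end Pool.Agent.H71.D2
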